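import Mathlib

/-!
Classes of computably enumerable algebras and computable reducibility of their
isomorphism relations: the definitions used in the statement.
-/

namespace Pool.Agent.Lib.MP_418eb4_lc

/-- `W e` is the `e`-th computably enumerable subset of `ℕ`: the domain of the `e`-th partial
computable function. -/
def W (e : ℕ) : Set ℕ :=
  {k | ((Denumerable.ofNat Nat.Partrec.Code e).eval k).Dom}

/-- A signature: a family of function symbols, indexed by a decidable set of natural numbers,
with a computable arity map. -/
structure Signature where
  /-- the index set of the family of function symbols -/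
  symb : Set ℕ
  decidable_symb : ComputablePred fun f => f ∈ symb
  /-- the number of arguments of the symbol `f` -/
  arity : ℕ → ℕ
  computable_arity : Computable arity

/-- Terms in the signature `σ` over the set `X` of generators (variables). -/
inductive Term (σ : Signature) (X : Type) : Type
  | var (x : X) : Term σ X
  | app (f : σ.symb) (a : Fin (σ.arity f) → Term σ X) : Term σ X

variable {σ : Signature} {X Y : Type}

/-- Substitution of terms for variables. -/
def Term.subst (τ : X → Term σ Y) : Term σ X → Term σ Y
  | .var x => τ x
  | .app f a => .app f fun i => (a i).subst τ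

/-- The Goedel number of a term. -/
def Term.code [Encodable X] : Term σ X → ℕ
  | .var x => 2 * Encodable.encode x
  | .app f a => 2 * Nat.pair f (Encodable.encode (List.ofFn fun i => (a i).code)) + 1

/-- The natural number that codes the pair `(s, t)` of terms. -/
def pairCode [Encodable X] (s t : Term σ X) : ℕ := Nat.pair s.code t.code

/-- A variety in the signature `σ`, given by a decidable set of equational laws. A law is a pair
of terms in the variables `x₀, x₁, x₂, ...`. -/
structure Variety (σ : Signature) where
  laws : Set (Term σ ℕ × Term σ ℕ)
  decidable_laws : ComputablePred fun k => ∃ l ∈ laws, pairCode l.1 l.2 = k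

/-- `r` is a congruence of the term algebra over `X` whose quotient satisfies the laws of `V`. -/
structure IsCongruence (V : Variety σ) (r : Term σ X → Term σ X → Prop) : Prop where
  equiv : Equivalence r
  app : ∀ f a b, (∀ i, r (a i) (b i)) → r (.app f a) (.app f b)
  law : ∀ l ∈ V.laws, ∀ τ : ℕ → Term σ X, r (l.1.subst τ) (l.2.subst τ)

/-- The smallest congruence of the term algebra over `X` that contains the pairs coded in the set
`A` and makes the quotient satisfy the laws of `V`. -/
def cong (V : Variety σ) [Encodable X] (A : Set ℕ) (s t : Term σ X) : Prop :=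
  ∀ r : Term σ X → Term σ X → Prop,
    IsCongruence V r → (∀ p q, pairCode p q ∈ A → r p q) → r s t

theorem cong_isCongruence (V : Variety σ) [Encodable X] (A : Set ℕ) :
    IsCongruence V (cong V A : Term σ X → Term σ X → Prop) where
  equiv :=
    { refl := fun s r hr _ => hr.equiv.refl s
      symm := fun h r hr hA => hr.equiv.symm (h r hr hA)
      trans := fun h h' r hr hA => hr.equiv.trans (h r hr hA) (h' r hr hA) }
  app := fun f a b h r hr hA => hr.app f a b fun i => h i r hr hA
  law := fun l hl τ r hr _ => hr.law l hl τ

/-- `cong` as a setoid on the term algebra with `n` generators. -/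
def congSetoid (V : Variety σ) (n e : ℕ) : Setoid (Term σ (Fin n)) where
  r := cong V (W e)
  iseqv := (cong_isCongruence V (W e)).equiv

/-- The underlying set of the `e`-th c.e. algebra `𝒱ₙ[e]` with `n` generators of the variety `V`. -/
def Alg (V : Variety σ) (n e : ℕ) : Type := Quotient (congSetoid V n e)

/-- The class in `𝒱ₙ[e]` of a term in `n` generators. -/
def Alg.mk (V : Variety σ) (n e : ℕ) (t : Term σ (Fin n)) : Alg V n e :=
  Quotient.mk (congSetoid V n e) t

/-- The basic operations of `𝒱ₙ[e]`. They are computed on representatives. -/
noncomputable def Alg.op {V : Variety σ} {n e : ℕ} (f : σ.symb)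
    (a : Fin (σ.arity f) → Alg V n e) : Alg V n e :=
  Alg.mk V n e (.app f fun i => Quotient.out (a i))

/-- The operations of `𝒱ₙ[e]` do not depend on the choice of the representatives. -/
theorem Alg.op_mk {V : Variety σ} {n e : ℕ} (f : σ.symb)
    (a : Fin (σ.arity f) → Term σ (Fin n)) :
    Alg.op f (fun i => Alg.mk V n e (a i)) = Alg.mk V n e (.app f a) :=
  Quotient.sound ((cong_isCongruence V (W e)).app f _ _ fun i =>
    Quotient.exact (Quotient.out_eq (Alg.mk V n e (a i))))

/-- The isomorphism relation of the class `𝒱ₙ` of c.e. algebras: `e ≅ i` iff the algebras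
`𝒱ₙ[e]` and `𝒱ₙ[i]` are isomorphic. -/
def Variety.isoRel (V : Variety σ) (n e i : ℕ) : Prop :=
  ∃ φ : Alg V n e ≃ Alg V n i, ∀ (f : σ.symb) (a : Fin (σ.arity f) → Alg V n e),
    φ (Alg.op f a) = Alg.op f fun j => φ (a j)

/-- Computable reducibility `E ≤_c F` of relations on `ℕ`. -/
def Reducible (E F : ℕ → ℕ → Prop) : Prop :=
  ∃ h : ℕ → ℕ, Computable h ∧ ∀ x y, E x y ↔ F (h x) (h y)

end Pool.Agent.Lib.MP_418eb4_lc
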