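import Pool.Agent.Lib.MP_418eb4_lc.Switch

namespace Pool.Agent.Lib.MP_418eb4_lc

section EvalCode

variable {M : Type}

/-- Look up the values of the codes in a list. -/
def lookup (tab : List (Option M)) (l : List ℕ) : Option (List M) :=
  l.foldr (fun c acc => (tab.getD c none).bind fun v => acc.map fun vs => v :: vs) (some [])

theorem lookup_cons (tab : List (Option M)) (c : ℕ) (l : List ℕ) :
    lookup tab (c :: l) = (tab.getD c none).bind fun v => (lookup tab l).map fun vs => v :: vs :=
  rfl

theorem lookup_ofFn (tab : List (Option M)) : ∀ {n : ℕ} (c : Fin n → ℕ) (v : Fin n → M),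
    (∀ i, tab.getD (c i) none = some (v i)) → lookup tab (List.ofFn c) = some (List.ofFn v) := by
  intro n
  induction n with
  | zero => intro c v _; simp [lookup]
  | succ n ih =>
    intro c v h
    rw [List.ofFn_succ, List.ofFn_succ, lookup_cons, h 0, ih _ _ fun i => h i.succ]
    rfl

theorem lookup_some (tab : List (Option M)) : ∀ (l : List ℕ) (vs : List M),
    lookup tab l = some vs → vs.length = l.length ∧
      ∀ i (h : i < l.length) (h' : i < vs.length), tab.getD l[i] none = some vs[i] := by
  intro l
  induction l with
  | nil =>
    intro vs h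
    obtain rfl : [] = vs := Option.some.inj h
    exact ⟨rfl, fun i h => absurd h (Nat.not_lt_zero i)⟩
  | cons c l ih =>
    intro vs h
    rw [lookup_cons] at h
    obtain ⟨v, hv, h2⟩ := Option.bind_eq_some_iff.1 h
    obtain ⟨ws, hws, rfl⟩ := Option.map_eq_some_iff.1 h2
    obtain ⟨h3, h4⟩ := ih ws hws
    refine ⟨by simp [h3], ?_⟩
    intro i hi hi'
    cases i with
    | zero => simpa using hv
    | succ i => simpa using h4 i (by simpa using hi) (by simpa using hi')

/-- One step of the evaluation of codes of terms. -/
def step (x0 : M) (opl : ℕ → List M → Option M) (tab : List (Option M)) : Option M :=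
  if tab.length % 2 = 0 then (if tab.length = 0 then some x0 else none)
  else (lookup tab (Denumerable.ofNat (List ℕ) (tab.length / 2).unpair.2)).bind
    (opl (tab.length / 2).unpair.1)

/-- The table of the values of the codes below `n`. -/
def table (x0 : M) (opl : ℕ → List M → Option M) (n : ℕ) : List (Option M) :=
  n.rec [] fun _ tab => tab ++ [step x0 opl tab]

theorem table_succ (x0 : M) (opl : ℕ → List M → Option M) (n : ℕ) :
    table x0 opl (n + 1) = table x0 opl n ++ [step x0 opl (table x0 opl n)] := rfl

/-- The value of a code. -/
def evc (x0 : M) (opl : ℕ → List M → Option M) (n : ℕ) : Option M :=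
  step x0 opl (table x0 opl n)

theorem length_table (x0 : M) (opl : ℕ → List M → Option M) (n : ℕ) :
    (table x0 opl n).length = n := by
  induction n with
  | zero => rfl
  | succ n ih => rw [table_succ, List.length_append, ih]; rfl

theorem table_getD (x0 : M) (opl : ℕ → List M → Option M) {n c : ℕ} (h : c < n) :
    (table x0 opl n).getD c none = evc x0 opl c := by
  induction n with
  | zero => exact absurd h (Nat.not_lt_zero c)
  | succ n ih =>
    rw [table_succ]
    rcases Nat.lt_succ_iff_lt_or_eq.1 h with h1 | rfl
    · rw [List.getD_append _ _ _ _ (by rw [length_table]; exact h1)]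
      exact ih h1
    · rw [List.getD_append_right _ _ _ _ (by rw [length_table]), length_table]
      simp [evc]

theorem evc_eq (x0 : M) (opl : ℕ → List M → Option M) (n : ℕ) :
    evc x0 opl n = if n % 2 = 0 then (if n = 0 then some x0 else none)
      else (lookup (table x0 opl n) (Denumerable.ofNat (List ℕ) (n / 2).unpair.2)).bind
        (opl (n / 2).unpair.1) := by
  rw [evc, step, length_table]

theorem lt_encode_of_mem : ∀ (l : List ℕ) (c : ℕ), c ∈ l → c < Encodable.encode l := by
  intro l
  induction l with
  | nil => intro c h; simp at h
  | cons a l ih =>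
    intro c h
    rw [Encodable.encode_list_cons]
    rcases List.mem_cons.1 h with rfl | h
    · exact Nat.lt_succ_of_le (Nat.left_le_pair _ _)
    · exact Nat.lt_succ_of_lt (lt_of_lt_of_le (ih c h) (Nat.right_le_pair _ _))

section Spec

variable {σ : Signature} (A : Model σ) (opl : ℕ → List A.M → Option A.M)
  (hop : ∀ (f : σ.symb) (v : Fin (σ.arity f) → A.M), opl f (List.ofFn v) = some (A.op f v))
  (hop' : ∀ (f : ℕ) (l : List A.M) (m : A.M), opl f l = some m →
    f ∈ σ.symb ∧ l.length = σ.arity f)

include hop in
theorem evc_code (t : Term σ (Fin 1)) : evc A.x0 opl t.code = some (A.ev t) := by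
  induction t with
  | var x =>
    rw [Subsingleton.elim x 0]
    rfl
  | app f a ih =>
    have h1 : (2 * Nat.pair f (Encodable.encode (List.ofFn fun i => (a i).code)) + 1) / 2 =
      Nat.pair f (Encodable.encode (List.ofFn fun i => (a i).code)) := by omega
    have h2 : ¬ (2 * Nat.pair f (Encodable.encode (List.ofFn fun i => (a i).code)) + 1) % 2 = 0 := by
      omega
    rw [Term.code, evc_eq, if_neg h2, h1, Nat.unpair_pair]
    simp only [Denumerable.ofNat_encode]
    rw [lookup_ofFn _ _ (fun i => A.ev (a i)), Option.bind_some, hop]
    · rfl
    · intro i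
      rw [table_getD, ih]
      have h3 := lt_encode_of_mem (List.ofFn fun i => (a i).code) (a i).code
        (List.mem_ofFn.2 ⟨i, rfl⟩)
      have h4 := Nat.right_le_pair f (Encodable.encode (List.ofFn fun i => (a i).code))
      omega

include hop hop' in
theorem exists_of_evc (n : ℕ) : ∀ m, evc A.x0 opl n = some m →
    ∃ t : Term σ (Fin 1), t.code = n ∧ A.ev t = m := by
  induction n using Nat.strong_induction_on with
  | _ n ih =>
    intro m h
    rw [evc_eq] at h
    by_cases h0 : n % 2 = 0
    · rw [if_pos h0] at h
      by_cases h1 : n = 0
      · rw [if_pos h1] at h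
        refine ⟨.var 0, h1.symm, Option.some.inj h⟩
      · rw [if_neg h1] at h
        exact absurd h (by simp)
    · rw [if_neg h0] at h
      obtain ⟨vs, h1, h2⟩ := Option.bind_eq_some_iff.1 h
      obtain ⟨hf, hl⟩ := hop' _ _ _ h2
      obtain ⟨h3, h4⟩ := lookup_some _ _ _ h1
      set f := (n / 2).unpair.1 with hfdef
      set l := Denumerable.ofNat (List ℕ) (n / 2).unpair.2 with hldef
      have hlt : ∀ c ∈ l, c < n := by
        intro c hc
        have h5 := lt_encode_of_mem l c hc
        rw [hldef, Denumerable.encode_ofNat] at h5
        have h6 := Nat.unpair_right_le (n / 2)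
        omega
      have h7 : ∀ i : Fin (σ.arity f), ∃ t : Term σ (Fin 1),
          t.code = l[i.1]'(by have := i.2; omega) ∧ A.ev t = vs[i.1]'(by have := i.2; omega) := by
        intro i
        have hi := i.2
        have hm : l[i.1]'(by omega) ∈ l := List.getElem_mem _
        have h8 := h4 i.1 (by omega) (by omega)
        rw [table_getD _ _ (hlt _ hm)] at h8
        exact ih _ (hlt _ hm) _ h8
      choose a ha ha' using h7
      refine ⟨.app ⟨f, hf⟩ a, ?_, ?_⟩
      · have h9 : (List.ofFn fun i => (a i).code) = l := by
          apply List.ext_getElem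
          · rw [List.length_ofFn]
            omega
          · intro i h10 h11
            rw [List.getElem_ofFn, ha]
        rw [Term.code]
        simp only [h9]
        rw [hldef, Denumerable.encode_ofNat, hfdef, Nat.pair_unpair]
        omega
      · have h9 : (List.ofFn fun i => A.ev (a i)) = vs := by
          apply List.ext_getElem
          · rw [List.length_ofFn]
            omega
          · intro i h10 h11
            rw [List.getElem_ofFn, ha']
        have h10 := hop ⟨f, hf⟩ fun i => A.ev (a i)
        simp only [h9] at h10
        rw [h2] at h10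
        exact (Option.some.inj h10).symm

end Spec

section Prim

variable [Primcodable M]

theorem primrec_lookup : Primrec₂ (lookup : List (Option M) → List ℕ → Option (List M)) := by
  have h1 : Primrec₂ fun (a : List (Option M) × List ℕ) (p : ℕ × Option (List M)) =>
      (a.1.getD p.1 none).bind fun v => p.2.map fun vs => v :: vs := by
    apply Primrec.option_bind
    · exact (Primrec.list_getD none).comp (Primrec.fst.comp Primrec.fst)
        (Primrec.fst.comp Primrec.snd)
    · apply Primrec.option_map
      · exact Primrec.snd.comp (Primrec.snd.comp Primrec.fst)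
      · exact Primrec.list_cons.comp (Primrec.snd.comp Primrec.fst) Primrec.snd
  exact Primrec.list_foldr Primrec.snd (Primrec.const (some [])) h1

theorem primrec_step (x0 : M) {opl : ℕ → List M → Option M} (h : Primrec₂ opl) :
    Primrec (step x0 opl) := by
  have hl : Primrec (List.length : List (Option M) → ℕ) := Primrec.list_length
  have h2 : Primrec fun tab : List (Option M) => (tab.length / 2).unpair :=
    Primrec.unpair.comp (Primrec.nat_div.comp hl (Primrec.const 2))
  apply Primrec.ite
  · exact Primrec.eq.comp (Primrec.nat_mod.comp hl (Primrec.const 2)) (Primrec.const 0)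
  · apply Primrec.ite
    · exact Primrec.eq.comp hl (Primrec.const 0)
    · exact Primrec.const (some x0)
    · exact Primrec.const none
  · apply Primrec.option_bind
    · exact primrec_lookup.comp Primrec.id ((Primrec.ofNat (List ℕ)).comp (Primrec.snd.comp h2))
    · exact h.comp (Primrec.fst.comp (h2.comp Primrec.fst)) Primrec.snd

theorem primrec_table (x0 : M) {opl : ℕ → List M → Option M} (h : Primrec₂ opl) :
    Primrec (table x0 opl) := by
  apply Primrec.nat_rec₁
  exact Primrec.list_append.comp Primrec.snd
    (Primrec.list_cons.comp ((primrec_step x0 h).comp Primrec.snd) (Primrec.const []))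

theorem primrec_evc (x0 : M) {opl : ℕ → List M → Option M} (h : Primrec₂ opl) :
    Primrec (evc x0 opl) :=
  (primrec_step x0 h).comp (primrec_table x0 h)

end Prim

end EvalCode

/-- The set of codes of pairs of terms whose values satisfy a primitive recursive relation is
decidable. -/
theorem computable_pairs {σ : Signature} (A : Model σ) [Primcodable A.M]
    (opl : ℕ → List A.M → Option A.M) (hp : Primrec₂ opl)
    (hop : ∀ (f : σ.symb) (v : Fin (σ.arity f) → A.M), opl f (List.ofFn v) = some (A.op f v))
    (hop' : ∀ (f : ℕ) (l : List A.M) (m : A.M), opl f l = some m →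
      f ∈ σ.symb ∧ l.length = σ.arity f)
    (R : A.M → A.M → Prop) (hR : PrimrecRel R) :
    ComputablePred fun k => ∃ p q : Term σ (Fin 1), pairCode p q = k ∧ R (A.ev p) (A.ev q) := by
  classical
  have hR' : Primrec₂ fun a b => decide (R a b) := hR.decide
  let g : ℕ → Bool := fun k => ((evc A.x0 opl k.unpair.1).bind fun a =>
    (evc A.x0 opl k.unpair.2).map fun b => decide (R a b)).getD false
  have hg : Primrec g := by
    have he := primrec_evc A.x0 hp
    refine Primrec.option_getD.comp ?_ (Primrec.const false)
    apply Primrec.option_bind
    · exact he.comp (Primrec.fst.comp Primrec.unpair)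
    · apply Primrec.option_map
      · exact he.comp (Primrec.snd.comp (Primrec.unpair.comp Primrec.fst))
      · exact hR'.comp (Primrec.snd.comp Primrec.fst) Primrec.snd
  refine ComputablePred.computable_iff.2 ⟨g, hg.to_comp, ?_⟩
  funext k
  apply propext
  constructor
  · rintro ⟨p, q, rfl, h⟩
    simp only [g, pairCode, Nat.unpair_pair]
    rw [evc_code A opl hop, evc_code A opl hop]
    simpa using h
  · intro h
    simp only [g] at h
    cases h1 : evc A.x0 opl k.unpair.1 with
    | none => rw [h1] at h; exact absurd h (by simp)
    | some a =>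
      cases h2 : evc A.x0 opl k.unpair.2 with
      | none => rw [h1, h2] at h; exact absurd h (by simp)
      | some b =>
        rw [h1, h2] at h
        obtain ⟨p, hp1, hp2⟩ := exists_of_evc A opl hop hop' _ _ h1
        obtain ⟨q, hq1, hq2⟩ := exists_of_evc A opl hop hop' _ _ h2
        refine ⟨p, q, ?_, ?_⟩
        · rw [pairCode, hp1, hq1, Nat.pair_unpair]
        · rw [hp2, hq2]
          simpa using h

end Pool.Agent.Lib.MP_418eb4_lc
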