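import Pool.Agent.Lib.MP_418eb4_lc.Models

namespace Pool.Agent.Lib.MP_418eb4_lc

/-! ### Effectivity of the two algebras -/

instance : Primcodable modelA.M := inferInstanceAs (Primcodable ℕ)

instance : Primcodable modelB.M := inferInstanceAs (Primcodable (Bool × ℕ))

theorem primrec_oplA : Primrec₂ (opl 2 0 Nat.succ binA) :=
  primrec_opl 2 0 Primrec.succ (Primrec.nat_min.comp (Primrec.fst.comp Primrec.snd)
    (Primrec.snd.comp Primrec.snd))

theorem primrec_oplB : Primrec₂ (opl 3 (false, 0) unB binB) := by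
  apply primrec_opl 3 (false, 0)
  · apply Primrec.ite
    · exact Primrec.eq.comp Primrec.fst (Primrec.const true)
    · exact Primrec.id
    · exact (Primrec.const false).pair (Primrec.succ.comp Primrec.snd)
  · have hf : Primrec fun p : ℕ × (Bool × ℕ) × (Bool × ℕ) => p.1 := Primrec.fst
    have hp : Primrec fun p : ℕ × (Bool × ℕ) × (Bool × ℕ) => p.2.1 :=
      Primrec.fst.comp Primrec.snd
    have hq : Primrec fun p : ℕ × (Bool × ℕ) × (Bool × ℕ) => p.2.2 :=
      Primrec.snd.comp Primrec.snd
    have hp1 : Primrec fun p : ℕ × (Bool × ℕ) × (Bool × ℕ) => p.2.1.1 := Primrec.fst.comp hp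
    have hp2 : Primrec fun p : ℕ × (Bool × ℕ) × (Bool × ℕ) => p.2.1.2 := Primrec.snd.comp hp
    have hq1 : Primrec fun p : ℕ × (Bool × ℕ) × (Bool × ℕ) => p.2.2.1 := Primrec.fst.comp hq
    have hq2 : Primrec fun p : ℕ × (Bool × ℕ) × (Bool × ℕ) => p.2.2.2 := Primrec.snd.comp hq
    unfold binB
    apply Primrec.ite (Primrec.eq.comp hf (Primrec.const 1))
    · exact (Primrec.const true).pair (Primrec.nat_max.comp hp2 hq2)
    apply Primrec.ite (Primrec.eq.comp hp1 (Primrec.const true))
    · exact hp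
    apply Primrec.ite (Primrec.nat_lt.comp hp2 hq2)
    · apply Primrec.ite (Primrec.eq.comp hq1 (Primrec.const true))
      · exact (Primrec.const true).pair (Primrec.nat_sub.comp hq2 (Primrec.const 1))
      · exact hp
    · apply Primrec.ite (Primrec.eq.comp hq1 (Primrec.const true))
      · exact hq
      · exact (Primrec.const true).pair hp2

theorem computable_pairsA (R : ℕ → ℕ → Prop) (hR : PrimrecRel R) :
    ComputablePred fun k => ∃ p q : Term (sig 2) (Fin 1),
      pairCode p q = k ∧ R (modelA.ev p) (modelA.ev q) :=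
  computable_pairs modelA (opl (M := ℕ) 2 0 Nat.succ binA) primrec_oplA
    (fun f v => opl_ofFn 2 0 Nat.succ binA f v) (fun f l m => opl_some 2 0 Nat.succ binA f l m)
    R hR

theorem computable_pairsB (R : Bool × ℕ → Bool × ℕ → Prop) (hR : PrimrecRel R) :
    ComputablePred fun k => ∃ p q : Term (sig 3) (Fin 1),
      pairCode p q = k ∧ R (modelB.ev p) (modelB.ev q) :=
  computable_pairs modelB (opl 3 (false, 0) unB binB) primrec_oplB
    (fun f v => opl_ofFn 3 (false, 0) unB binB f v)
    (fun f l m => opl_some 3 (false, 0) unB binB f l m) R hR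

theorem ev_eq_of_code_A {p q : Term (sig 2) (Fin 1)} (h : p.code = q.code) :
    modelA.ev p = modelA.ev q := by
  have h1 := evc_code modelA (opl (M := ℕ) 2 0 Nat.succ binA)
    (fun f v => opl_ofFn 2 0 Nat.succ binA f v)
  have h2 := h1 p
  rw [h, h1 q] at h2
  exact (Option.some.inj h2).symm

theorem ev_eq_of_code_B {p q : Term (sig 3) (Fin 1)} (h : p.code = q.code) :
    modelB.ev p = modelB.ev q := by
  have h1 := evc_code modelB (opl 3 (false, 0) unB binB)
    (fun f v => opl_ofFn 3 (false, 0) unB binB f v)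
  have h2 := h1 p
  rw [h, h1 q] at h2
  exact (Option.some.inj h2).symm

/-- The first variety. -/
def varA : Variety (sig 2) :=
  modelA.variety ((computable_pairsA (fun a b => a = b) Primrec.eq).of_eq fun k => by
    constructor
    · rintro ⟨p, q, h1, h2⟩
      exact ⟨p, q, h2, h1⟩
    · rintro ⟨p, q, h1, h2⟩
      exact ⟨p, q, h2, h1⟩)

/-- The second variety. -/
def varB : Variety (sig 3) :=
  modelB.variety ((computable_pairsB (fun a b => a = b) Primrec.eq).of_eq fun k => by
    constructor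
    · rintro ⟨p, q, h1, h2⟩
      exact ⟨p, q, h2, h1⟩
    · rintro ⟨p, q, h1, h2⟩
      exact ⟨p, q, h2, h1⟩)

theorem hdecA (Θ : modelA.M → modelA.M → Prop) (hΘ : IsCon modelA.op Θ) :
    ComputablePred fun k => ∃ p q : Term (sig 2) (Fin 1),
      pairCode p q = k ∧ ¬ Θ (modelA.ev p) (modelA.ev q) := by
  obtain ⟨r, hr⟩ := classA hΘ
  have h1 : PrimrecPred fun p : ℕ × ℕ => p.1 = p.2 :=
    Primrec.eq.comp Primrec.fst Primrec.snd
  have key : PrimrecRel fun a b : ℕ => ¬ Θ a b := by
    cases r with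
    | top =>
      have h2 : PrimrecRel fun a b : ℕ => ¬ a = b := PrimrecPred.not h1
      refine h2.of_eq fun a b => ?_
      rw [hr]
      simp
    | coe r =>
      have h3 : PrimrecPred fun p : ℕ × ℕ => r ≤ p.1 :=
        Primrec.nat_le.comp (Primrec.const r) Primrec.fst
      have h4 : PrimrecPred fun p : ℕ × ℕ => r ≤ p.2 :=
        Primrec.nat_le.comp (Primrec.const r) Primrec.snd
      have h2 : PrimrecRel fun a b : ℕ => ¬ (a = b ∨ (r ≤ a ∧ r ≤ b)) :=
        PrimrecPred.not (h1.or (h3.and h4))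
      refine h2.of_eq fun a b => not_congr ?_
      rw [hr]
      have h5 : ∀ m : ℕ, ((r : ℕ) : WithTop ℕ) ≤ ((m : ℕ) : WithTop ℕ) ↔ r ≤ m :=
        fun m => WithTop.coe_le_coe
      exact or_congr Iff.rfl (and_congr (h5 a).symm (h5 b).symm)
  exact computable_pairsA _ key

theorem hdecB (Θ : modelB.M → modelB.M → Prop) (hΘ : IsCon modelB.op Θ) :
    ComputablePred fun k => ∃ p q : Term (sig 3) (Fin 1),
      pairCode p q = k ∧ ¬ Θ (modelB.ev p) (modelB.ev q) := by
  obtain ⟨r, hr⟩ := classB hΘ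
  have h1 : PrimrecPred fun p : (Bool × ℕ) × (Bool × ℕ) => p.1 = p.2 :=
    Primrec.eq.comp Primrec.fst Primrec.snd
  have h2 : PrimrecPred fun p : (Bool × ℕ) × (Bool × ℕ) => p.1.1 = true :=
    Primrec.eq.comp (Primrec.fst.comp Primrec.fst) (Primrec.const true)
  have h3 : PrimrecPred fun p : (Bool × ℕ) × (Bool × ℕ) => p.2.1 = true :=
    Primrec.eq.comp (Primrec.fst.comp Primrec.snd) (Primrec.const true)
  have key : PrimrecRel fun a b : Bool × ℕ => ¬ Θ a b := by
    cases r with
    | top =>
      have h4 : PrimrecRel fun a b : Bool × ℕ => ¬ (a = b ∨ ¬ a = b) :=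
        PrimrecPred.not (h1.or h1.not)
      refine h4.of_eq fun a b => ?_
      rw [hr]
      simp [em]
    | coe r =>
      cases r with
      | top =>
        have h4 : PrimrecRel fun a b : Bool × ℕ => ¬ (a = b ∨ (a.1 = true ∧ b.1 = true)) :=
          PrimrecPred.not (h1.or (h2.and h3))
        refine h4.of_eq fun a b => ?_
        rw [hr]
        have h5 : ∀ n : ℕ, ((n : ℕ) : WithTop (WithTop ℕ)) ≤
            ((⊤ : WithTop ℕ) : WithTop (WithTop ℕ)) := by
          intro n
          have : ((n : WithTop ℕ) : WithTop (WithTop ℕ)) ≤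
              ((⊤ : WithTop ℕ) : WithTop (WithTop ℕ)) := WithTop.coe_le_coe.2 le_top
          exact this
        simp [h5]
      | coe r =>
        have h5 : PrimrecPred fun p : (Bool × ℕ) × (Bool × ℕ) => p.1.2 ≤ r :=
          Primrec.nat_le.comp (Primrec.snd.comp Primrec.fst) (Primrec.const r)
        have h6 : PrimrecPred fun p : (Bool × ℕ) × (Bool × ℕ) => p.2.2 ≤ r :=
          Primrec.nat_le.comp (Primrec.snd.comp Primrec.snd) (Primrec.const r)
        have h4 : PrimrecRel fun a b : Bool × ℕ =>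
            ¬ (a = b ∨ (a.1 = true ∧ b.1 = true ∧ a.2 ≤ r ∧ b.2 ≤ r)) :=
          PrimrecPred.not (h1.or (h2.and (h3.and (h5.and h6))))
        refine h4.of_eq fun a b => not_congr ?_
        have h7 : ∀ m : ℕ, ((m : ℕ) : WithTop (WithTop ℕ)) ≤
            (((r : WithTop ℕ)) : WithTop (WithTop ℕ)) ↔ m ≤ r :=
          fun m => WithTop.coe_le_coe.trans WithTop.coe_le_coe
        have h8 := hr a b
        constructor
        · rintro (h9 | ⟨h9, h10, h11, h12⟩)
          · exact h8.2 (Or.inr (Or.inl h9))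
          · exact h8.2 (Or.inr (Or.inr ⟨h9, h10, (h7 _).2 h11, (h7 _).2 h12⟩))
        · intro h9
          rcases h8.1 h9 with h9 | h9 | ⟨h9, h10, h11, h12⟩
          · exact absurd h9 WithTop.coe_ne_top
          · exact Or.inl h9
          · exact Or.inr ⟨h9, h10, (h7 _).1 h11, (h7 _).1 h12⟩
  exact computable_pairsB _ key

/-! ### The two non-reducibility results -/

theorem Model.con_mono {σ : Signature} (A : Model σ) {R S : Set ℕ} (h : R ⊆ S) {a b : A.M}
    (hab : A.Con R a b) : A.Con S a b :=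
  fun Θ hΘ hS => hab Θ hΘ fun p q hpq => hS p q (h hpq)

theorem computable_pair_set (u v : ℕ) : ComputablePred fun k => k ∈ ({u, v} : Set ℕ) := by
  have h : PrimrecPred fun k : ℕ => k = u ∨ k = v :=
    (Primrec.eq.comp Primrec.id (Primrec.const u)).or
      (Primrec.eq.comp Primrec.id (Primrec.const v))
  exact h.computablePred.of_eq fun k => Iff.rfl

theorem chain_of_reduction {σ τ : Signature} (S : Model σ) (T : Model τ)
    {V : Variety σ} (hV : V.laws = S.laws) {U : Variety τ} (hU : U.laws = T.laws)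
    (hdec : ∀ Θ : T.M → T.M → Prop, IsCon T.op Θ →
      ComputablePred fun k => ∃ p q : Term τ (Fin 1), pairCode p q = k ∧ ¬ Θ (T.ev p) (T.ev q))
    {h : ℕ → ℕ} (hh : Computable h) (hred : ∀ x y, V.isoRel 1 x y ↔ U.isoRel 1 (h x) (h y))
    {a b u v : ℕ} (ha : W a = {u}) (hb : W b = {v})
    (hS : ∀ Θ, IsCon S.op Θ → (∀ p q : Term σ (Fin 1), pairCode p q = v → Θ (S.ev p) (S.ev q)) →
      ∀ p q : Term σ (Fin 1), pairCode p q = u → Θ (S.ev p) (S.ev q))
    (x y : T.M) (hxy : T.Con (W (h a)) x y) : T.Con (W (h b)) x y := by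
  obtain ⟨e, he⟩ := exists_index (computable_pair_set u v)
  have h1 := monotone_of_reduction S T hV hU hdec hh hred (a := a) (b := e)
    (by rw [ha]; simpa using computable_pair_set u u) (by rw [he]; exact computable_pair_set u v)
    (by rw [ha, he]; intro k hk; exact Or.inl hk) x y hxy
  have h2 : V.isoRel 1 e b := by
    rw [S.isoRel_iff hV]
    funext c d
    apply propext
    constructor
    · intro h3
      refine h3 _ (S.con_isCon _) ?_
      intro p q hpq
      rw [he] at hpq
      rcases hpq with hpq | hpq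
      · exact hS _ (S.con_isCon _)
          (fun p q hpq => S.con_of_mem (by rw [hb]; exact hpq)) p q hpq
      · exact S.con_of_mem (by rw [hb]; exact hpq)
    · intro h3
      exact S.con_mono (by rw [hb, he]; intro k hk; exact Or.inr hk) h3
  rw [hred, T.isoRel_iff hU] at h2
  rw [← h2]
  exact h1

theorem rel_of_eq {α : Type} {Θ : α → α → Prop} {x y x' y' : α} (hx : x = x') (hy : y = y')
    (h : Θ x y) : Θ x' y' := by
  subst hx hy
  exact h

theorem not_reducible_AB : ¬ Reducible (varA.isoRel 1) (varB.isoRel 1) := by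
  rintro ⟨h, hh, hred⟩
  choose t ht using modelA.surj
  have ht' : ∀ m : ℕ, modelA.ev (t m) = m := ht
  have hcode : ∀ (m : ℕ) (p q : Term (sig 2) (Fin 1)), pairCode p q =
      pairCode (t m) (t (m + 1)) → modelA.ev p = m ∧ modelA.ev q = m + 1 := by
    intro m p q hpq
    rw [pairCode, pairCode, Nat.pair_eq_pair] at hpq
    exact ⟨(ev_eq_of_code_A hpq.1).trans (ht' m), (ev_eq_of_code_A hpq.2).trans (ht' (m + 1))⟩
  have hidx : ∀ m : ℕ, ∃ e, W e = {pairCode (t m) (t (m + 1))} := by
    intro m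
    obtain ⟨e, he⟩ := exists_index (computable_pair_set (pairCode (t m) (t (m + 1)))
      (pairCode (t m) (t (m + 1))))
    exact ⟨e, by rw [he]; simp⟩
  choose a ha using hidx
  have hmono : ∀ i j, i < j → ∀ x y, modelB.Con (W (h (a j))) x y →
      modelB.Con (W (h (a i))) x y := by
    intro i j hij
    apply chain_of_reduction modelA modelB (V := varA) rfl (U := varB) rfl hdecB hh hred
      (ha j) (ha i)
    intro Θ hΘ h1 p q hpq
    obtain ⟨hp, hq⟩ := hcode j p q hpq
    have h2 := rel_of_eq (ht' i) (ht' (i + 1)) (h1 (t i) (t (i + 1)) rfl)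
    obtain ⟨r, hr⟩ := classA hΘ
    have h3 := (hr i (i + 1)).1 h2
    refine rel_of_eq hp.symm hq.symm ((hr j (j + 1)).2 ?_)
    right
    rcases h3 with h3 | ⟨h3, -⟩
    · exact absurd h3 (Nat.succ_ne_self i).symm
    · have h4 : ((i : ℕ) : WithTop ℕ) ≤ (j : ℕ) := by exact_mod_cast hij.le
      have h5 : ((i : ℕ) : WithTop ℕ) ≤ ((j + 1 : ℕ) : WithTop ℕ) := by
        exact_mod_cast (by omega : i ≤ j + 1)
      exact ⟨h3.trans h4, h3.trans h5⟩
  have hinj : ∀ i j, i < j → modelB.Con (W (h (a i))) ≠ modelB.Con (W (h (a j))) := by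
    intro i j hij heq
    rw [← modelB.isoRel_iff (V := varB) rfl, ← hred, modelA.isoRel_iff (V := varA) rfl] at heq
    have h1 : modelA.Con (W (a i)) (i : ℕ) (i + 1 : ℕ) :=
      rel_of_eq (ht' i) (ht' (i + 1))
        (modelA.con_of_mem (R := W (a i)) (p := t i) (q := t (i + 1)) (by rw [ha]; rfl))
    rw [heq] at h1
    have h2 := h1 (fun x y : ℕ => x = y ∨ (j ≤ x ∧ j ≤ y)) (isConA j) ?_
    · omega
    · intro p q hpq
      rw [ha] at hpq
      obtain ⟨hp, hq⟩ := hcode j p q hpq
      refine rel_of_eq (Θ := fun x y : ℕ => x = y ∨ (j ≤ x ∧ j ≤ y)) hp.symm hq.symm ?_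
      right
      exact ⟨le_refl j, Nat.le_succ j⟩
  choose r hr using fun m => classB (modelB.con_isCon (W (h (a m))))
  apply not_strictAnti_of_wellFoundedLT r
  intro i j hij
  by_contra hn
  rw [not_lt] at hn
  apply hinj i j hij
  funext x y
  apply propext
  constructor
  · intro h1
    apply (hr j x y).2
    rcases (hr i x y).1 h1 with h1 | h1 | ⟨h1, h2, h3, h4⟩
    · left
      rw [h1] at hn
      exact top_le_iff.1 hn
    · exact Or.inr (Or.inl h1)
    · exact Or.inr (Or.inr ⟨h1, h2, h3.trans hn, h4.trans hn⟩)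
  · exact hmono i j hij x y

theorem not_reducible_BA : ¬ Reducible (varB.isoRel 1) (varA.isoRel 1) := by
  rintro ⟨h, hh, hred⟩
  choose t ht using modelB.surj
  have ht' : ∀ m : Bool × ℕ, modelB.ev (t m) = m := ht
  have hcode : ∀ (m : ℕ) (p q : Term (sig 3) (Fin 1)), pairCode p q =
      pairCode (t (true, 0)) (t (true, m)) →
        modelB.ev p = (true, 0) ∧ modelB.ev q = (true, m) := by
    intro m p q hpq
    rw [pairCode, pairCode, Nat.pair_eq_pair] at hpq
    exact ⟨(ev_eq_of_code_B hpq.1).trans (ht' _), (ev_eq_of_code_B hpq.2).trans (ht' _)⟩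
  have hidx : ∀ m : ℕ, ∃ e, W e = {pairCode (t (true, 0)) (t (true, m))} := by
    intro m
    obtain ⟨e, he⟩ := exists_index (computable_pair_set (pairCode (t (true, 0)) (t (true, m)))
      (pairCode (t (true, 0)) (t (true, m))))
    exact ⟨e, by rw [he]; simp⟩
  choose a ha using hidx
  have hmono : ∀ i j, i < j → ∀ x y, modelA.Con (W (h (a i))) x y →
      modelA.Con (W (h (a j))) x y := by
    intro i j hij
    apply chain_of_reduction modelB modelA (V := varB) rfl (U := varA) rfl hdecA hh hred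
      (ha i) (ha j)
    intro Θ hΘ h1 p q hpq
    obtain ⟨hp, hq⟩ := hcode i p q hpq
    rw [hp, hq]
    have h2 := h1 (t (true, 0)) (t (true, j)) rfl
    rw [ht', ht'] at h2
    have h3 := conB_yy hΘ (i := 0) (j := j) (by omega) h2 (m := i) hij.le
    exact hΘ.equiv.trans h2 (hΘ.equiv.symm h3)
  have hinj : ∀ i j, i < j → modelA.Con (W (h (a i))) ≠ modelA.Con (W (h (a j))) := by
    intro i j hij heq
    rw [← modelA.isoRel_iff (V := varA) rfl, ← hred, modelB.isoRel_iff (V := varB) rfl] at heq
    have h1 : modelB.Con (W (a j)) (true, 0) (true, j) := by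
      have h2 := modelB.con_of_mem (R := W (a j)) (p := t (true, 0)) (q := t (true, j))
        (by rw [ha]; rfl)
      rw [ht', ht'] at h2
      exact h2
    rw [← heq] at h1
    have h2 := h1 (fun x y : Bool × ℕ => x = y ∨ (x.1 = true ∧ y.1 = true ∧ x.2 ≤ i ∧ y.2 ≤ i))
      (isConB i) ?_
    · simp only [Prod.mk.injEq, true_and, Nat.zero_le] at h2
      omega
    · intro p q hpq
      rw [ha] at hpq
      obtain ⟨hp, hq⟩ := hcode i p q hpq
      rw [hp, hq]
      right
      exact ⟨rfl, rfl, Nat.zero_le _, le_refl i⟩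
  choose r hr using fun m => classA (modelA.con_isCon (W (h (a m))))
  apply not_strictAnti_of_wellFoundedLT r
  intro i j hij
  by_contra hn
  rw [not_lt] at hn
  apply hinj i j hij
  funext x y
  apply propext
  constructor
  · exact hmono i j hij x y
  · intro h1
    have h2 := (hr j x y).1 h1
    apply (hr i x y).2
    rcases h2 with h2 | ⟨h2, h3⟩
    · exact Or.inl h2
    · exact Or.inr ⟨hn.trans h2, hn.trans h3⟩

end Pool.Agent.Lib.MP_418eb4_lc
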