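import Pool.Agent.Lib.MP_418eb4_lc.Defs

namespace Pool.Agent.Lib.MP_418eb4_lc

variable {σ : Signature} {X Y : Type}

/-- Evaluation of terms in an algebra. -/
def Term.eval {M : Type} (op : (f : σ.symb) → (Fin (σ.arity f) → M) → M) (ρ : X → M) :
    Term σ X → M
  | .var x => ρ x
  | .app f a => op f fun i => (a i).eval op ρ

theorem Term.eval_subst {M : Type} (op : (f : σ.symb) → (Fin (σ.arity f) → M) → M)
    (ρ : Y → M) (τ : X → Term σ Y) (t : Term σ X) :
    (t.subst τ).eval op ρ = t.eval op (fun x => (τ x).eval op ρ) := by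
  induction t with
  | var x => rfl
  | app f a ih => simp only [Term.subst, Term.eval, ih]

theorem Term.subst_subst {Z : Type} (τ : X → Term σ Y) (μ : Y → Term σ Z) (t : Term σ X) :
    (t.subst τ).subst μ = t.subst (fun x => (τ x).subst μ) := by
  induction t with
  | var x => rfl
  | app f a ih => simp only [Term.subst, ih]

/-- The embedding of one-variable terms in the terms over `x₀, x₁, ...`. -/
def up (p : Term σ (Fin 1)) : Term σ ℕ := Term.subst (fun i : Fin 1 => Term.var (i : ℕ)) p

theorem code_up (p : Term σ (Fin 1)) : (up p).code = p.code := by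
  induction p with
  | var x => rw [Subsingleton.elim x 0]; rfl
  | app f a ih =>
    have h : ∀ i, (Term.subst (fun i : Fin 1 => (Term.var (i : ℕ) : Term σ ℕ)) (a i)).code =
        (a i).code := ih
    simp only [up, Term.subst, Term.code, h]

/-- Congruences of an algebra. -/
structure IsCon {M : Type} (op : (f : σ.symb) → (Fin (σ.arity f) → M) → M)
    (Θ : M → M → Prop) : Prop where
  equiv : Equivalence Θ
  app : ∀ f a b, (∀ i, Θ (a i) (b i)) → Θ (op f a) (op f b)

/-- A one-generated algebra that is relatively free, with two rigidity properties. -/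
structure Model (σ : Signature) where
  M : Type
  op : (f : σ.symb) → (Fin (σ.arity f) → M) → M
  x0 : M
  surj : ∀ m, ∃ t : Term σ (Fin 1), t.eval op (fun _ => x0) = m
  endo : M → M → M
  endo_x0 : ∀ c, endo c x0 = c
  endo_op : ∀ c f v, endo c (op f v) = op f (fun i => endo c (v i))
  endo_ne : ∀ c v, endo c v = x0 → c = x0
  total : ∀ Θ : M → M → Prop, IsCon op Θ → ∀ m, m ≠ x0 → Θ x0 m → ∀ a b, Θ a b

namespace Model

variable (A : Model σ)

/-- Evaluation of one-variable terms at the generator. -/
def ev (t : Term σ (Fin 1)) : A.M := t.eval A.op fun _ => A.x0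

theorem ev_app (f : σ.symb) (a : Fin (σ.arity f) → Term σ (Fin 1)) :
    A.ev (.app f a) = A.op f fun i => A.ev (a i) := rfl

theorem endo_eval (c : A.M) (t : Term σ (Fin 1)) :
    A.endo c (A.ev t) = t.eval A.op (fun _ => c) := by
  induction t with
  | var x => exact A.endo_x0 c
  | app f a ih =>
    rw [ev_app, A.endo_op]
    simp only [ih, Term.eval]

theorem endo_id (m : A.M) : A.endo A.x0 m = m := by
  obtain ⟨t, rfl⟩ := A.surj m
  exact A.endo_eval A.x0 t

/-- The one-variable identities valid in the algebra. -/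
def laws : Set (Term σ ℕ × Term σ ℕ) :=
  {l | ∃ p q : Term σ (Fin 1), A.ev p = A.ev q ∧ l = (up p, up q)}

theorem mem_laws_code (k : ℕ) :
    (∃ l ∈ A.laws, pairCode l.1 l.2 = k) ↔
      ∃ p q : Term σ (Fin 1), A.ev p = A.ev q ∧ pairCode p q = k := by
  constructor
  · rintro ⟨l, ⟨p, q, hpq, rfl⟩, hk⟩
    refine ⟨p, q, hpq, ?_⟩
    rw [← hk]
    simp [pairCode, code_up]
  · rintro ⟨p, q, hpq, hk⟩
    refine ⟨_, ⟨p, q, hpq, rfl⟩, ?_⟩
    rw [← hk]
    simp [pairCode, code_up]

/-- The variety defined by the one-variable identities of `A`. -/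
def variety (h : ComputablePred fun k => ∃ p q : Term σ (Fin 1), A.ev p = A.ev q ∧
    pairCode p q = k) : Variety σ where
  laws := A.laws
  decidable_laws := h.of_eq fun k => (A.mem_laws_code k).symm

/-- The smallest congruence of `A` containing the pairs of values of the coded pairs. -/
def Con (R : Set ℕ) (a b : A.M) : Prop :=
  ∀ Θ : A.M → A.M → Prop, IsCon A.op Θ →
    (∀ p q : Term σ (Fin 1), pairCode p q ∈ R → Θ (A.ev p) (A.ev q)) → Θ a b

theorem con_isCon (R : Set ℕ) : IsCon A.op (A.Con R) where
  equiv :=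
    { refl := fun s _ hr _ => hr.equiv.refl s
      symm := fun h r hr hA => hr.equiv.symm (h r hr hA)
      trans := fun h h' r hr hA => hr.equiv.trans (h r hr hA) (h' r hr hA) }
  app := fun f a b h r hr hA => hr.app f a b fun i => h i r hr hA

theorem con_of_mem {R : Set ℕ} {p q : Term σ (Fin 1)} (h : pairCode p q ∈ R) :
    A.Con R (A.ev p) (A.ev q) := fun _ _ h2 => h2 p q h

variable {V : Variety σ} (hV : V.laws = A.laws)

include hV in
theorem cong_of_ev_eq (R : Set ℕ) {s t : Term σ (Fin 1)} (h : A.ev s = A.ev t) :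
    cong V R s t := by
  have h1 := (cong_isCongruence (X := Fin 1) V R).law (up s, up t)
    (by rw [hV]; exact ⟨s, t, h, rfl⟩) (fun _ => Term.var 0)
  have h2 : ∀ p : Term σ (Fin 1), (up p).subst (fun _ => Term.var 0) = p := by
    intro p
    rw [up, Term.subst_subst]
    induction p with
    | var x =>
      simp only [Term.subst]
      rw [Subsingleton.elim x 0]
    | app f a ih => simp only [Term.subst] at ih ⊢; simp only [ih]
  simpa only [h2] using h1

include hV in
theorem cong_iff (R : Set ℕ) (s t : Term σ (Fin 1)) :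
    cong V R s t ↔ A.Con R (A.ev s) (A.ev t) := by
  constructor
  · intro h
    refine h (fun s t => A.Con R (A.ev s) (A.ev t)) ?_ ?_
    · refine ⟨⟨fun s => (A.con_isCon R).equiv.refl _, fun h => (A.con_isCon R).equiv.symm h,
        fun h h' => (A.con_isCon R).equiv.trans h h'⟩, ?_, ?_⟩
      · intro f a b hab
        exact (A.con_isCon R).app f _ _ hab
      · intro l hl τ
        rw [hV] at hl
        obtain ⟨p, q, hpq, rfl⟩ := hl
        have key : ∀ p : Term σ (Fin 1),
            A.ev ((up p).subst τ) = A.endo (A.ev (τ 0)) (A.ev p) := by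
          intro p
          rw [A.endo_eval, up, Term.subst_subst, ev, Term.eval_subst]
          congr 1
          funext x
          rw [Subsingleton.elim x 0]
          rfl
        simp only [key, hpq]
        exact (A.con_isCon R).equiv.refl _
    · intro p q hpq
      exact A.con_of_mem hpq
  · intro h
    have hc := cong_isCongruence (X := Fin 1) V R
    have key := h (fun a b => ∀ s t, A.ev s = a → A.ev t = b → cong V R s t) ?_ ?_
    · exact key s t rfl rfl
    · refine ⟨⟨?_, ?_, ?_⟩, ?_⟩
      · intro a s t hs ht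
        exact A.cong_of_ev_eq hV R (hs.trans ht.symm)
      · intro a b h s t hs ht
        exact hc.equiv.symm (h t s ht hs)
      · intro a b c h h' s t hs ht
        obtain ⟨u, hu⟩ := A.surj b
        exact hc.equiv.trans (h s u hs hu) (h' u t hu ht)
      · intro f a b hab s t hs ht
        choose u hu using fun i => A.surj (a i)
        choose v hv using fun i => A.surj (b i)
        have h1 : cong V R s (.app f u) := by
          apply A.cong_of_ev_eq hV
          rw [hs, ev_app]
          congr 1
          funext i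
          exact (hu i).symm
        have h2 : cong V R t (.app f v) := by
          apply A.cong_of_ev_eq hV
          rw [ht, ev_app]
          congr 1
          funext i
          exact (hv i).symm
        exact hc.equiv.trans h1 (hc.equiv.trans
          (hc.app f u v fun i => hab i _ _ (hu i) (hv i)) (hc.equiv.symm h2))
    · intro p q hpq s t hs ht
      exact hc.equiv.trans (A.cong_of_ev_eq hV R hs)
        (hc.equiv.trans (fun r _ hA => hA p q hpq) (A.cong_of_ev_eq hV R ht.symm))

include hV in
theorem isoRel_iff (e i : ℕ) : V.isoRel 1 e i ↔ A.Con (W e) = A.Con (W i) := by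
  constructor
  · rintro ⟨φ, hφ⟩
    have hmk : ∀ (e : ℕ) (s t : Term σ (Fin 1)), Alg.mk V 1 e s = Alg.mk V 1 e t ↔
        A.Con (W e) (A.ev s) (A.ev t) := by
      intro e s t
      rw [← A.cong_iff hV]
      exact Quotient.eq
    obtain ⟨c, hc⟩ : ∃ c, Alg.mk V 1 i c = φ (Alg.mk V 1 e (.var 0)) :=
      ⟨_, Quotient.out_eq _⟩
    have key : ∀ s : Term σ (Fin 1), φ (Alg.mk V 1 e s) = Alg.mk V 1 i (s.subst fun _ => c) := by
      intro s
      induction s with
      | var x => rw [Subsingleton.elim x 0]; exact hc.symm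
      | app f a ih =>
        rw [← Alg.op_mk, hφ]
        simp only [ih]
        rw [Alg.op_mk]
        rfl
    have hev : ∀ s : Term σ (Fin 1), A.ev (s.subst fun _ => c) = A.endo (A.ev c) (A.ev s) := by
      intro s
      rw [A.endo_eval, ev, Term.eval_subst]
      rfl
    have key2 : ∀ s t : Term σ (Fin 1), A.Con (W e) (A.ev s) (A.ev t) ↔
        A.Con (W i) (A.endo (A.ev c) (A.ev s)) (A.endo (A.ev c) (A.ev t)) := by
      intro s t
      rw [← hmk, ← hev, ← hev, ← hmk, ← key, ← key]
      exact φ.injective.eq_iff.symm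
    by_cases hcx : A.ev c = A.x0
    · funext a b
      obtain ⟨s, rfl⟩ := A.surj a
      obtain ⟨t, rfl⟩ := A.surj b
      have := key2 s t
      rw [hcx, A.endo_id, A.endo_id] at this
      exact propext this
    · obtain ⟨s, hs⟩ : ∃ s, Alg.mk V 1 e s = φ.symm (Alg.mk V 1 i (.var 0)) :=
        ⟨_, Quotient.out_eq _⟩
      have h1 : Alg.mk V 1 i (s.subst fun _ => c) = Alg.mk V 1 i (.var 0) := by
        rw [← key, hs, φ.apply_symm_apply]
      rw [hmk, hev] at h1
      have h2 : A.endo (A.ev c) (A.ev s) ≠ A.x0 := fun h => hcx (A.endo_ne _ _ h)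
      have h3 := A.total _ (A.con_isCon (W i)) _ h2 ((A.con_isCon (W i)).equiv.symm h1)
      funext a b
      obtain ⟨s, rfl⟩ := A.surj a
      obtain ⟨t, rfl⟩ := A.surj b
      exact propext ⟨fun _ => h3 _ _, fun _ => (key2 s t).2 (h3 _ _)⟩
  · intro h
    have hr : ∀ s t : Term σ (Fin 1), cong V (W e) s t ↔ cong V (W i) s t := by
      intro s t
      rw [A.cong_iff hV, A.cong_iff hV, h]
    refine ⟨Quotient.congrRight hr, ?_⟩
    intro f a
    have hmk : ∀ t : Term σ (Fin 1), Quotient.congrRight hr (Alg.mk V 1 e t) =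
        Alg.mk V 1 i t := fun t => rfl
    obtain ⟨u, hu⟩ : ∃ u : Fin (σ.arity f) → Term σ (Fin 1), ∀ j, Alg.mk V 1 e (u j) = a j :=
      ⟨fun j => (a j).out, fun j => Quotient.out_eq (a j)⟩
    obtain rfl : (fun j => Alg.mk V 1 e (u j)) = a := funext hu
    rw [Alg.op_mk]
    erw [hmk]
    have : ∀ j, (Quotient.congrRight hr) (Alg.mk V 1 e (u j)) = Alg.mk V 1 i (u j) :=
      fun j => rfl
    rw [← Alg.op_mk]
    rfl

end Model

end Pool.Agent.Lib.MP_418eb4_lc
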