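import Pool.Agent.Lib.MP_418eb4_lc.EvalCode

namespace Pool.Agent.Lib.MP_418eb4_lc

/-- One unary symbol `0`; all other symbols are binary. -/
def ar (f : ℕ) : ℕ := if f = 0 then 1 else 2

theorem ar_pos (f : ℕ) : 0 < ar f := by
  unfold ar
  split_ifs <;> norm_num

theorem ar_two {f : ℕ} (h : f ≠ 0) : ar f = 2 := if_neg h

/-- The signature with the symbols `0, ..., n - 1`; `0` is unary and the others are binary. -/
def sig (n : ℕ) : Signature where
  symb := {f | f < n}
  decidable_symb := by
    have h : PrimrecPred fun f : ℕ => f < n :=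
      PrimrecRel.comp Primrec.nat_lt Primrec.id (Primrec.const n)
    exact h.computablePred.of_eq fun f => Iff.rfl
  arity := ar
  computable_arity := (Primrec.ite (Primrec.eq.comp Primrec.id (Primrec.const 0))
    (Primrec.const 1) (Primrec.const 2)).to_comp

variable {M : Type}

/-- Operations of an algebra in the signature `sig n` from a unary operation and binary
operations. -/
def mkOp (n : ℕ) (u : M → M) (b : ℕ → M → M → M) (f : (sig n).symb)
    (v : Fin ((sig n).arity f) → M) : M :=
  if h : (f : ℕ) = 0 then u (v ⟨0, ar_pos f⟩)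
  else b f (v ⟨0, ar_pos f⟩) (v ⟨1, by change 1 < ar f; rw [ar_two h]; norm_num⟩)

theorem mem_sig {n f : ℕ} (h : f < n) : f ∈ (sig n).symb := h

theorem mkOp_zero {n : ℕ} (u : M → M) (b : ℕ → M → M → M) (h : 0 < n) (a : M) :
    mkOp n u b ⟨0, mem_sig h⟩ (fun _ => a) = u a := by
  simp [mkOp]

theorem mkOp_bin {n : ℕ} (u : M → M) (b : ℕ → M → M → M) {f : ℕ} (h : f < n) (hf : f ≠ 0)
    (x y : M) : mkOp n u b ⟨f, mem_sig h⟩ (fun i => if i.1 = 0 then x else y) = b f x y := by
  simp [mkOp, hf]

/-- The operations on lists. -/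
def opl (n : ℕ) (d : M) (u : M → M) (b : ℕ → M → M → M) (f : ℕ) (l : List M) : Option M :=
  if f < n then
    if f = 0 then (if l.length = 1 then some (u (l.getD 0 d)) else none)
    else (if l.length = 2 then some (b f (l.getD 0 d) (l.getD 1 d)) else none)
  else none

theorem ofFn_one {k : ℕ} (h : k = 1) (v : Fin k → M) : List.ofFn v = [v ⟨0, by omega⟩] := by
  subst h
  simp

theorem ofFn_two {k : ℕ} (h : k = 2) (v : Fin k → M) :
    List.ofFn v = [v ⟨0, by omega⟩, v ⟨1, by omega⟩] := by
  subst h
  simp [List.ofFn_succ]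

theorem opl_ofFn (n : ℕ) (d : M) (u : M → M) (b : ℕ → M → M → M) (f : (sig n).symb)
    (v : Fin ((sig n).arity f) → M) :
    opl n d u b f (List.ofFn v) = some (mkOp n u b f v) := by
  obtain ⟨f, hf⟩ := f
  have hf' : f < n := hf
  by_cases h : f = 0
  · subst h
    rw [ofFn_one (k := (sig n).arity 0) rfl v]
    simp [opl, mkOp, hf']
  · rw [ofFn_two (k := (sig n).arity f) (ar_two h) v]
    simp [opl, mkOp, hf', h]

theorem opl_some (n : ℕ) (d : M) (u : M → M) (b : ℕ → M → M → M) (f : ℕ) (l : List M) (m : M)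
    (h : opl n d u b f l = some m) : f ∈ (sig n).symb ∧ l.length = (sig n).arity f := by
  unfold opl at h
  split_ifs at h with h1 h2 h3 h3
  · exact ⟨mem_sig h1, by subst h2; exact h3⟩
  · exact ⟨mem_sig h1, h3.trans (ar_two h2).symm⟩

theorem primrec_opl [Primcodable M] (n : ℕ) (d : M) {u : M → M} {b : ℕ → M → M → M}
    (hu : Primrec u) (hb : Primrec fun p : ℕ × M × M => b p.1 p.2.1 p.2.2) :
    Primrec₂ (opl n d u b) := by
  have hl : Primrec fun p : ℕ × List M => p.2.length := Primrec.list_length.comp Primrec.snd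
  have h0 : Primrec fun p : ℕ × List M => p.2.getD 0 d :=
    (Primrec.list_getD d).comp Primrec.snd (Primrec.const 0)
  have h1 : Primrec fun p : ℕ × List M => p.2.getD 1 d :=
    (Primrec.list_getD d).comp Primrec.snd (Primrec.const 1)
  apply Primrec.ite
  · exact Primrec.nat_lt.comp Primrec.fst (Primrec.const n)
  · apply Primrec.ite
    · exact Primrec.eq.comp Primrec.fst (Primrec.const 0)
    · apply Primrec.ite
      · exact Primrec.eq.comp hl (Primrec.const 1)
      · exact Primrec.option_some.comp (hu.comp h0)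
      · exact Primrec.const none
    · apply Primrec.ite
      · exact Primrec.eq.comp hl (Primrec.const 2)
      · exact Primrec.option_some.comp (hb.comp (Primrec.fst.pair (h0.pair h1)))
      · exact Primrec.const none
  · exact Primrec.const none

theorem IsCon.unary {n : ℕ} {u : M → M} {b : ℕ → M → M → M} {Θ : M → M → Prop}
    (h : IsCon (mkOp n u b) Θ) (hn : 0 < n) {x y : M} (hxy : Θ x y) : Θ (u x) (u y) := by
  have := h.app ⟨0, mem_sig hn⟩ (fun _ => x) (fun _ => y) fun _ => hxy
  rwa [mkOp_zero _ _ hn, mkOp_zero _ _ hn] at this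

theorem IsCon.binary {n : ℕ} {u : M → M} {b : ℕ → M → M → M} {Θ : M → M → Prop}
    (h : IsCon (mkOp n u b) Θ) {f : ℕ} (hf : f < n) (hf0 : f ≠ 0) {x y x' y' : M}
    (hx : Θ x x') (hy : Θ y y') : Θ (b f x y) (b f x' y') := by
  have := h.app ⟨f, mem_sig hf⟩ (fun i => if i.1 = 0 then x else y) (fun i => if i.1 = 0 then x' else y')
    (fun i => by
      by_cases hi : i.1 = 0
      · simpa [hi] using hx
      · simpa [hi] using hy)
  rwa [mkOp_bin u b hf hf0, mkOp_bin u b hf hf0] at this

theorem isCon_mk {n : ℕ} {u : M → M} {b : ℕ → M → M → M} {Θ : M → M → Prop}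
    (he : Equivalence Θ) (hu : ∀ x y, Θ x y → Θ (u x) (u y))
    (hb : ∀ f x y x' y', Θ x x' → Θ y y' → Θ (b f x y) (b f x' y')) :
    IsCon (mkOp n u b) Θ where
  equiv := he
  app := by
    intro f v w h
    unfold mkOp
    split_ifs with h1
    · exact hu _ _ (h _)
    · exact hb _ _ _ _ _ (h _) (h _)

/-! ### The first algebra: `(ℕ, + 1, min)` -/

/-- The binary operation of the first algebra. -/
def binA (_ : ℕ) (x y : ℕ) : ℕ := min x y

theorem classA {Θ : ℕ → ℕ → Prop} (h : IsCon (mkOp 2 Nat.succ binA) Θ) :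
    ∃ r : WithTop ℕ, ∀ a b, Θ a b ↔ a = b ∨ (r ≤ (a : WithTop ℕ) ∧ r ≤ (b : WithTop ℕ)) := by
  have h1 : ∀ i j, i < j → Θ i j → ∀ k, i ≤ k → Θ i k := by
    intro i j hij hΘ k hk
    have h2 : Θ i (i + 1) := by
      have h3 := h.binary (f := 1) (by norm_num) one_ne_zero (h.equiv.refl (i + 1)) hΘ
      simp only [binA] at h3
      rw [min_eq_right (Nat.le_succ i), min_eq_left hij] at h3
      exact h3
    induction k, hk using Nat.le_induction with
    | base => exact h.equiv.refl i
    | succ k _ ih => exact h.equiv.trans h2 (h.unary (by norm_num) ih)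
  by_cases hx : ∃ i, Θ i (i + 1)
  · classical
    refine ⟨(Nat.find hx : ℕ), fun a b => ?_⟩
    have h2 := h1 _ _ (Nat.lt_succ_self _) (Nat.find_spec hx)
    constructor
    · intro hab
      by_cases hab' : a = b
      · exact Or.inl hab'
      · right
        have h3 : ∀ i j, i < j → Θ i j → Nat.find hx ≤ i :=
          fun i j hij hΘ => Nat.find_min' hx (h1 i j hij hΘ _ (Nat.le_succ i))
        simp only [Nat.cast_le]
        rcases Nat.lt_or_gt_of_ne hab' with h4 | h4
        · have := h3 a b h4 hab
          exact ⟨by exact_mod_cast this, by exact_mod_cast (by omega : Nat.find hx ≤ b)⟩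
        · have := h3 b a h4 (h.equiv.symm hab)
          exact ⟨by exact_mod_cast (by omega : Nat.find hx ≤ a), by exact_mod_cast this⟩
    · rintro (rfl | ⟨ha, hb⟩)
      · exact h.equiv.refl a
      · have ha' : Nat.find hx ≤ a := by exact_mod_cast ha
        have hb' : Nat.find hx ≤ b := by exact_mod_cast hb
        exact h.equiv.trans (h.equiv.symm (h2 a ha')) (h2 b hb')
  · refine ⟨⊤, fun a b => ?_⟩
    push Not at hx
    constructor
    · intro hab
      by_contra hn
      push Not at hn
      rcases Nat.lt_or_gt_of_ne hn.1 with h4 | h4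
      · exact hx a (h1 a b h4 hab _ (Nat.le_succ a))
      · exact hx b (h1 b a h4 (h.equiv.symm hab) _ (Nat.le_succ b))
    · rintro (rfl | ⟨ha, -⟩)
      · exact h.equiv.refl a
      · exact absurd ha (by simp)

theorem isConA (r : ℕ) : IsCon (mkOp 2 Nat.succ binA) fun a b => a = b ∨ (r ≤ a ∧ r ≤ b) := by
  apply isCon_mk
  · refine ⟨fun a => Or.inl rfl, ?_, ?_⟩
    · intro a b h; omega
    · intro a b c h h'; omega
  · intro x y h
    simp only [Nat.succ_eq_add_one]
    omega
  · intro f x y x' y' h h'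
    simp only [binA]
    omega

/-- The first algebra. -/
def modelA : Model (sig 2) where
  M := ℕ
  op := mkOp 2 Nat.succ binA
  x0 := 0
  surj := by
    intro m
    induction m with
    | zero => exact ⟨.var 0, rfl⟩
    | succ m ih =>
      obtain ⟨t, ht⟩ := ih
      refine ⟨.app ⟨0, mem_sig (by norm_num)⟩ fun _ => t, ?_⟩
      simp only [Term.eval, ht]
      exact mkOp_zero _ _ (by norm_num) _
  endo := fun c m => m + c
  endo_x0 := fun c => Nat.zero_add c
  endo_op := by
    intro c f v
    simp only [mkOp, binA]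
    split_ifs with h
    · simp only [Nat.succ_eq_add_one]
      omega
    · omega
  endo_ne := by
    intro c v h
    omega
  total := by
    intro Θ h m hm h0 a b
    obtain ⟨r, hr⟩ := classA h
    rw [hr] at h0 ⊢
    rcases h0 with h0 | ⟨h0, -⟩
    · exact absurd h0.symm hm
    · right
      have h1 : r = 0 := by simpa using h0
      subst h1
      exact ⟨by simp, by simp⟩

/-! ### The second algebra -/

/-- The unary operation of the second algebra; `(false, k)` is `xₖ` and `(true, k)` is `yₖ`. -/
def unB (p : Bool × ℕ) : Bool × ℕ := if p.1 = true then p else (false, p.2 + 1)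

/-- The binary operations of the second algebra. -/
def binB (f : ℕ) (p q : Bool × ℕ) : Bool × ℕ :=
  if f = 1 then (true, max p.2 q.2)
  else if p.1 = true then p
  else if p.2 < q.2 then (if q.1 = true then (true, q.2 - 1) else p)
  else (if q.1 = true then q else (true, p.2))

section classB

variable {Θ : Bool × ℕ → Bool × ℕ → Prop} (h : IsCon (mkOp 3 unB binB) Θ)

include h

theorem conB_xx {i j : ℕ} (hij : i < j) (hΘ : Θ (false, i) (false, j)) :
    Θ (false, i) (true, i) := by
  have h1 := h.binary (f := 2) (by norm_num) two_ne_zero (h.equiv.refl (false, i)) hΘ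
  simp only [binB] at h1
  have h2 : ¬ (2 = 1) := by norm_num
  simp only [h2, if_false, hij, if_true, lt_irrefl, Bool.false_eq_true] at h1
  exact h.equiv.symm h1

theorem conB_xy {k a : ℕ} (hΘ : Θ (false, k) (true, a)) (p q : Bool × ℕ) : Θ p q := by
  have hs : ∀ p q, Θ p q → Θ (unB p) (unB q) := fun p q hpq => h.unary (by norm_num) hpq
  have h1 : Θ (false, k) (true, k) := by
    apply conB_xx h (Nat.lt_succ_self k)
    have h2 := hs _ _ hΘ
    simp only [unB, Bool.false_eq_true, if_false, if_true] at h2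
    exact h.equiv.trans hΘ (h.equiv.symm h2)
  obtain ⟨b, hb⟩ : ∃ b, Θ (false, 0) (true, b) := by
    rcases Nat.eq_zero_or_pos k with rfl | hk
    · exact ⟨a, hΘ⟩
    · refine ⟨k - 1, ?_⟩
      have h2 := h.binary (f := 2) (by norm_num) two_ne_zero (h.equiv.refl (false, 0)) h1
      have h3 : ¬ (2 = 1) := by norm_num
      simpa only [binB, h3, if_false, hk, if_true, Bool.false_eq_true] using h2
  have h3 : ∀ j, Θ (false, j) (true, b) := by
    intro j
    induction j with
    | zero => exact hb
    | succ j ih =>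
      have h2 := hs _ _ ih
      simpa only [unB, Bool.false_eq_true, if_false, if_true] using h2
  have h4 : ∀ j, Θ (true, j) (true, b) := by
    intro j
    have h2 := h.binary (f := 1) (by norm_num) one_ne_zero (h3 j) (h3 j)
    simpa only [binB, if_true, max_self] using h2
  have h5 : ∀ p, Θ p (true, b) := by
    rintro ⟨c, j⟩
    cases c
    · exact h3 j
    · exact h4 j
  exact h.equiv.trans (h5 p) (h.equiv.symm (h5 q))

theorem conB_yy_up {i j : ℕ} (hΘ : Θ (true, i) (true, j)) {m : ℕ} (h1 : i ≤ m) (h2 : m ≤ j) :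
    Θ (true, m) (true, j) := by
  have h3 := h.binary (f := 1) (by norm_num) one_ne_zero hΘ (h.equiv.refl (true, m))
  simpa only [binB, if_true, max_eq_right h1, max_eq_left h2] using h3

theorem conB_yy {i j : ℕ} (hij : i < j) (hΘ : Θ (true, i) (true, j)) {m : ℕ} (hm : m ≤ j) :
    Θ (true, m) (true, j) := by
  have h1 : ∀ n, n ≤ i → Θ (true, i - n) (true, j) := by
    intro n
    induction n with
    | zero => intro _; exact hΘ
    | succ n ih =>
      intro hn
      have h2 := ih (by omega)
      have h3 := h.binary (f := 2) (by norm_num) two_ne_zero (h.equiv.refl (false, 0)) h2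
      have h4 : ¬ (2 = 1) := by norm_num
      have h5 : 0 < i - n := by omega
      have h6 : 0 < j := by omega
      simp only [binB, h4, if_false, h5, h6, if_true, Bool.false_eq_true] at h3
      have h7 := conB_yy_up h h2 (m := j - 1) (by omega) (by omega)
      rw [show i - (n + 1) = i - n - 1 by omega]
      exact h.equiv.trans h3 h7
  rcases le_total i m with h2 | h2
  · exact conB_yy_up h hΘ h2 hm
  · have := h1 (i - m) (by omega)
    rwa [show i - (i - m) = m by omega] at this

theorem classB : ∃ r : WithTop (WithTop ℕ), ∀ a b, Θ a b ↔ r = ⊤ ∨ a = b ∨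
    (a.1 = true ∧ b.1 = true ∧ ((a.2 : ℕ) : WithTop (WithTop ℕ)) ≤ r ∧
      ((b.2 : ℕ) : WithTop (WithTop ℕ)) ≤ r) := by
  by_cases ht : ∀ a b, Θ a b
  · exact ⟨⊤, fun a b => ⟨fun _ => Or.inl rfl, fun _ => ht a b⟩⟩
  have hxy : ∀ k a, ¬ Θ (false, k) (true, a) := fun k a hΘ => ht (conB_xy h hΘ)
  have hxx : ∀ i j, Θ (false, i) (false, j) → i = j := by
    intro i j hΘ
    rcases lt_trichotomy i j with h1 | h1 | h1
    · exact absurd (conB_xx h h1 hΘ) (hxy _ _)
    · exact h1
    · exact absurd (conB_xx h h1 (h.equiv.symm hΘ)) (hxy _ _)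
  have hyy : ∀ i j, Θ (true, i) (true, j) → i ≠ j →
      Θ (true, 0) (true, i) ∧ Θ (true, 0) (true, j) := by
    have key : ∀ i j, i < j → Θ (true, i) (true, j) →
        Θ (true, 0) (true, i) ∧ Θ (true, 0) (true, j) := by
      intro i j hij hΘ
      have h1 := conB_yy h hij hΘ (m := 0) (Nat.zero_le _)
      exact ⟨h.equiv.trans h1 (h.equiv.symm hΘ), h1⟩
    intro i j hΘ hne
    rcases Nat.lt_or_gt_of_ne hne with h1 | h1
    · exact key i j h1 hΘ
    · exact (key j i h1 (h.equiv.symm hΘ)).symm
  have hdown : ∀ i j, i ≤ j → Θ (true, 0) (true, j) → Θ (true, 0) (true, i) := by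
    intro i j hij hΘ
    rcases Nat.eq_zero_or_pos j with rfl | hj
    · obtain rfl : i = 0 := by omega
      exact hΘ
    · exact h.equiv.trans hΘ (h.equiv.symm (conB_yy h hj hΘ hij))
  have hclass : ∀ a b, Θ a b ↔ a = b ∨ (a.1 = true ∧ b.1 = true ∧ Θ (true, 0) (true, a.2) ∧
      Θ (true, 0) (true, b.2)) := by
    rintro ⟨c, i⟩ ⟨d, j⟩
    constructor
    · intro hΘ
      cases c <;> cases d
      · left; rw [hxx _ _ hΘ]
      · exact absurd hΘ (hxy _ _)
      · exact absurd (h.equiv.symm hΘ) (hxy _ _)
      · by_cases hij : i = j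
        · left; rw [hij]
        · right
          exact ⟨rfl, rfl, hyy _ _ hΘ hij⟩
    · rintro (h1 | ⟨h1, h2, h3, h4⟩)
      · rw [h1]; exact h.equiv.refl _
      · simp only at h1 h2
        subst h1 h2
        exact h.equiv.trans (h.equiv.symm h3) h4
  by_cases hb : ∀ j, Θ (true, 0) (true, j)
  · refine ⟨((⊤ : WithTop ℕ) : WithTop (WithTop ℕ)), fun a b => ?_⟩
    rw [hclass]
    have h1 : ∀ n : ℕ, ((n : ℕ) : WithTop (WithTop ℕ)) ≤ ((⊤ : WithTop ℕ) : WithTop (WithTop ℕ)) := by
      intro n
      have : ((n : WithTop ℕ) : WithTop (WithTop ℕ)) ≤ ((⊤ : WithTop ℕ) : WithTop (WithTop ℕ)) :=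
        WithTop.coe_le_coe.2 le_top
      exact this
    simp [hb, h1]
  · push Not at hb
    classical
    obtain ⟨hk1, hk2⟩ := (⟨Nat.find_spec hb, fun m hm => Nat.find_min hb hm⟩ :
      (¬ Θ (true, 0) (true, Nat.find hb)) ∧
        ∀ m, m < Nat.find hb → ¬ ¬ Θ (true, 0) (true, m))
    set k := Nat.find hb
    have hk0 : k ≠ 0 := by
      intro h0
      rw [h0] at hk1
      exact hk1 (h.equiv.refl _)
    have h2 : ∀ m, Θ (true, 0) (true, m) ↔ m ≤ k - 1 := by
      intro m
      constructor
      · intro hm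
        by_contra hn
        exact hk1 (hdown k m (by omega) hm)
      · intro hm
        exact not_not.1 (hk2 m (by omega))
    refine ⟨((k - 1 : ℕ) : WithTop (WithTop ℕ)), fun a b => ?_⟩
    rw [hclass, h2, h2]
    have h3 : ((k - 1 : ℕ) : WithTop (WithTop ℕ)) ≠ ⊤ := by
      exact WithTop.coe_ne_top
    have h4 : ∀ m n : ℕ, ((m : ℕ) : WithTop (WithTop ℕ)) ≤ ((n : ℕ) : WithTop (WithTop ℕ)) ↔
        m ≤ n := fun m n => by norm_cast
    rw [h4, h4]
    simp [h3]

end classB

theorem isConB (r : ℕ) : IsCon (mkOp 3 unB binB) fun a b =>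
    a = b ∨ (a.1 = true ∧ b.1 = true ∧ a.2 ≤ r ∧ b.2 ≤ r) := by
  apply isCon_mk
  · refine ⟨fun a => Or.inl rfl, ?_, ?_⟩
    · rintro a b (h | h)
      · exact Or.inl h.symm
      · exact Or.inr ⟨h.2.1, h.1, h.2.2.2, h.2.2.1⟩
    · rintro a b c (rfl | h) (rfl | h')
      · exact Or.inl rfl
      · exact Or.inr h'
      · exact Or.inr h
      · exact Or.inr ⟨h.1, h'.2.1, h.2.2.1, h'.2.2.2⟩
  · rintro x y (rfl | h)
    · exact Or.inl rfl
    · right
      simp only [unB, h.1, h.2.1, if_true]
      exact ⟨trivial, trivial, h.2.2⟩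
  · rintro f ⟨a, x⟩ ⟨b, y⟩ ⟨a', x'⟩ ⟨b', y'⟩ h h'
    simp only [Prod.mk.injEq] at h h'
    simp only [binB]
    cases a <;> cases b <;> cases a' <;> cases b' <;>
      simp only [Bool.false_eq_true, Bool.true_eq_false, false_and, and_false, or_false, true_and,
        if_true, if_false] at h h' ⊢ <;> split_ifs <;>
      simp only [Prod.mk.injEq, Bool.false_eq_true, Bool.true_eq_false, false_and, and_false,
        or_false, true_and] <;> omega

/-- The second algebra. -/
def modelB : Model (sig 3) where
  M := Bool × ℕ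
  op := mkOp 3 unB binB
  x0 := (false, 0)
  surj := by
    have h1 : ∀ m, ∃ t : Term (sig 3) (Fin 1),
        t.eval (mkOp 3 unB binB) (fun _ => (false, 0)) = (false, m) := by
      intro m
      induction m with
      | zero => exact ⟨.var 0, rfl⟩
      | succ m ih =>
        obtain ⟨t, ht⟩ := ih
        refine ⟨.app ⟨0, mem_sig (by norm_num)⟩ fun _ => t, ?_⟩
        simp only [Term.eval, ht]
        exact mkOp_zero _ _ (by norm_num) _
    rintro ⟨b, m⟩
    obtain ⟨t, ht⟩ := h1 m
    cases b
    · exact ⟨t, ht⟩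
    · refine ⟨.app ⟨1, mem_sig (by norm_num)⟩ fun _ => t, ?_⟩
      simp only [Term.eval, ht]
      simp [mkOp, binB]
  endo := fun c m => if c.1 = true then c else (m.1, m.2 + c.2)
  endo_x0 := by
    rintro ⟨b, c⟩
    cases b <;> simp
  endo_op := by
    rintro ⟨b, c⟩ f v
    cases b
    · simp only [Bool.false_eq_true, if_false]
      unfold mkOp
      split_ifs with h
      · unfold unB
        split_ifs with h1
        · rfl
        · simp only [Prod.mk.injEq, true_and]
          omega
      · unfold binB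
        simp only [Nat.add_lt_add_iff_right]
        split_ifs with h1 h2 h3 h4 h4
        · simp only [Prod.mk.injEq, true_and]
          omega
        · rfl
        · simp only [Prod.mk.injEq, true_and]
          omega
        · rfl
        · rfl
        · rfl
    · simp only [if_true]
      unfold mkOp
      split_ifs with h
      · simp [unB]
      · simp [binB]
  endo_ne := by
    rintro ⟨b, c⟩ ⟨d, m⟩ h
    cases b
    · simp only [Bool.false_eq_true, if_false, Prod.mk.injEq] at h
      rw [Prod.mk.injEq]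
      exact ⟨rfl, by omega⟩
    · simp at h
  total := by
    rintro Θ h ⟨b, m⟩ hm h0
    cases b
    · have hm' : 0 < m := by
        rcases Nat.eq_zero_or_pos m with rfl | h1
        · exact absurd rfl hm
        · exact h1
      exact conB_xy h (conB_xx h hm' h0)
    · exact conB_xy h h0

end Pool.Agent.Lib.MP_418eb4_lc
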