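import Pool.Agent.Lib.MP_418eb4_lc.General

namespace Pool.Agent.Lib.MP_418eb4_lc

open Nat.Partrec (Code)

/-- `k` is enumerated in `W e` in at most `s` steps. -/
def evB (e k s : ℕ) : Bool := (Code.evaln s (Denumerable.ofNat Code e) k).isSome

theorem mem_W_iff (e k : ℕ) : k ∈ W e ↔ ∃ s, evB e k s = true := by
  constructor
  · intro h
    obtain ⟨x, hx⟩ := Part.dom_iff_mem.1 h
    obtain ⟨s, hs⟩ := Code.evaln_complete.1 hx
    exact ⟨s, by rw [evB, Option.mem_def.1 hs]; rfl⟩
  · rintro ⟨s, hs⟩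
    obtain ⟨x, hx⟩ := Option.isSome_iff_exists.1 hs
    exact Part.dom_iff_mem.2 ⟨x, Code.evaln_sound (k := s) hx⟩

theorem computable_evB : Computable fun q : ℕ × ℕ × ℕ => evB q.1 q.2.1 q.2.2 := by
  have h4 : Computable fun q : ℕ × ℕ × ℕ => Denumerable.ofNat Code q.1 :=
    (Computable.ofNat Code).comp Computable.fst
  have h5 : Computable fun q : ℕ × ℕ × ℕ => ((q.2.2, Denumerable.ofNat Code q.1), q.2.1) :=
    ((Computable.snd.comp Computable.snd).pair h4).pair (Computable.fst.comp Computable.snd)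
  have h6 := Primrec.option_isSome.to_comp.comp (Code.primrec_evaln.to_comp.comp h5)
  exact h6

attribute [irreducible] evB

theorem computable_switch (h : ℕ → ℕ) (hh : Computable h) (a b c : ℕ → Bool)
    (ha : Computable a) (hb : Computable b) (hc : Computable c) :
    Computable fun (q : (Code × ℕ) × ℕ) => (a q.1.2 || (b q.1.2 &&
      (evB (h (Encodable.encode q.1.1)) q.2.unpair.1 q.2.unpair.2 && c q.2.unpair.1))) := by
  have h1 : Computable fun q : (Code × ℕ) × ℕ => a q.1.2 :=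
    ha.comp (Computable.snd.comp Computable.fst)
  have h2 : Computable fun q : (Code × ℕ) × ℕ => b q.1.2 :=
    hb.comp (Computable.snd.comp Computable.fst)
  have hu : Computable fun q : (Code × ℕ) × ℕ => q.2.unpair :=
    Computable.unpair.comp Computable.snd
  have h3 : Computable fun q : (Code × ℕ) × ℕ => c q.2.unpair.1 :=
    hc.comp (Computable.fst.comp hu)
  have h4 : Computable fun q : (Code × ℕ) × ℕ => h (Encodable.encode q.1.1) :=
    hh.comp (Computable.encode.comp (Computable.fst.comp Computable.fst))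
  have h5 : Computable fun q : (Code × ℕ) × ℕ =>
      evB (h (Encodable.encode q.1.1)) q.2.unpair.1 q.2.unpair.2 :=
    computable_evB.comp (h4.pair hu)
  exact Primrec.or.to_comp.comp h1 (Primrec.and.to_comp.comp h2
    (Primrec.and.to_comp.comp h5 h3))

theorem exists_fix (P : Code × ℕ → ℕ → Bool) (hP : Computable₂ P) :
    ∃ q : Code, ∀ n, n ∈ W (Encodable.encode q) ↔ ∃ s, P (q, n) s = true := by
  let f : Code → ℕ →. ℕ := fun q n => Nat.rfind fun s => (Part.some (P (q, n) s) : Part Bool)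
  have hf : Partrec₂ f := by
    have h1 : Partrec fun q : Code × ℕ => Nat.rfind fun s => (Part.some (P q s) : Part Bool) :=
      Partrec.rfind (p := fun q s => (Part.some (P q s) : Part Bool)) hP.partrec₂
    refine h1.of_eq fun q => ?_
    simp only [f]
  obtain ⟨q, hq⟩ := Code.fixed_point₂ hf
  refine ⟨q, fun n => ?_⟩
  have h1 : n ∈ W (Encodable.encode q) ↔
      (Nat.rfind fun s => (Part.some (P (q, n) s) : Part Bool)).Dom := by
    rw [W, Set.mem_ofPred_eq, Denumerable.ofNat_encode, hq]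
  rw [h1]
  constructor
  · intro h2
    obtain ⟨s, hs, -⟩ := Nat.rfind_dom.1 h2
    exact ⟨s, (Part.mem_some_iff.1 hs).symm⟩
  · rintro ⟨s, hs⟩
    exact Nat.rfind_dom.2 ⟨s, Part.mem_some_iff.2 hs.symm, fun _ => trivial⟩

/-- An index that behaves like `A` until the value of `h` at it enumerates an element of `N`,
and then switches to `B`. -/
theorem exists_switch (h : ℕ → ℕ) (hh : Computable h) {A B N : Set ℕ}
    (hA : ComputablePred fun k => k ∈ A) (hB : ComputablePred fun k => k ∈ B)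
    (hN : ComputablePred fun k => k ∈ N) (hAB : A ⊆ B) :
    ∃ e, ((∃ k ∈ W (h e), k ∈ N) → W e = B) ∧ ((¬ ∃ k ∈ W (h e), k ∈ N) → W e = A) := by
  obtain ⟨a, ha, ha'⟩ := ComputablePred.computable_iff.1 hA
  obtain ⟨b, hb, hb'⟩ := ComputablePred.computable_iff.1 hB
  obtain ⟨c, hc, hc'⟩ := ComputablePred.computable_iff.1 hN
  replace ha' : ∀ k, k ∈ A ↔ a k = true := fun k => iff_of_eq (congrFun ha' k)
  replace hb' : ∀ k, k ∈ B ↔ b k = true := fun k => iff_of_eq (congrFun hb' k)
  replace hc' : ∀ k, k ∈ N ↔ c k = true := fun k => iff_of_eq (congrFun hc' k)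
  obtain ⟨q, hq⟩ := exists_fix _ (computable_switch h hh a b c ha hb hc).to₂
  refine ⟨Encodable.encode q, ?_⟩
  have hW : ∀ n, n ∈ W (Encodable.encode q) ↔
      n ∈ A ∨ (n ∈ B ∧ ∃ k ∈ W (h (Encodable.encode q)), k ∈ N) := by
    intro n
    rw [hq]
    simp only [Bool.or_eq_true, Bool.and_eq_true, ← ha', ← hb', ← hc']
    constructor
    · rintro ⟨s, h2 | ⟨h2, h3, h4⟩⟩
      · exact Or.inl h2
      · exact Or.inr ⟨h2, _, (mem_W_iff _ _).2 ⟨_, h3⟩, h4⟩
    · rintro (h2 | ⟨h2, k, h3, h4⟩)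
      · exact ⟨0, Or.inl h2⟩
      · obtain ⟨s, hs⟩ := (mem_W_iff _ _).1 h3
        exact ⟨Nat.pair k s, Or.inr ⟨h2, by simpa using hs, by simpa using h4⟩⟩
  constructor
  · intro hx
    ext n
    rw [hW]
    exact ⟨fun h2 => h2.elim (fun h3 => hAB h3) fun h3 => h3.1, fun h2 => Or.inr ⟨h2, hx⟩⟩
  · intro hx
    ext n
    rw [hW]
    exact ⟨fun h2 => h2.elim id fun h3 => absurd h3.2 hx, Or.inl⟩

/-- Every decidable set is some `W e`. -/
theorem exists_index {A : Set ℕ} (hA : ComputablePred fun k => k ∈ A) : ∃ e, W e = A := by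
  obtain ⟨e, h1, h2⟩ := exists_switch (fun e => e) Computable.id (A := A) (B := A) (N := A)
    hA hA hA subset_rfl
  by_cases h : ∃ k ∈ W e, k ∈ A
  · exact ⟨e, h1 h⟩
  · exact ⟨e, h2 h⟩

/-- A computable reduction between isomorphism relations of one-generated c.e. algebras induces
a monotone map of congruences. -/
theorem monotone_of_reduction {σ τ : Signature} (A : Model σ) (B : Model τ)
    {V : Variety σ} (hV : V.laws = A.laws) {U : Variety τ} (hU : U.laws = B.laws)
    (hdec : ∀ Θ : B.M → B.M → Prop, IsCon B.op Θ →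
      ComputablePred fun k => ∃ p q : Term τ (Fin 1), pairCode p q = k ∧ ¬ Θ (B.ev p) (B.ev q))
    {h : ℕ → ℕ} (hh : Computable h) (hred : ∀ x y, V.isoRel 1 x y ↔ U.isoRel 1 (h x) (h y))
    {a b : ℕ} (ha : ComputablePred fun k => k ∈ W a) (hb : ComputablePred fun k => k ∈ W b)
    (hab : W a ⊆ W b) (x y : B.M) (hxy : B.Con (W (h a)) x y) : B.Con (W (h b)) x y := by
  obtain ⟨e, h1, h2⟩ := exists_switch h hh
    (N := {k | ∃ p q : Term τ (Fin 1), pairCode p q = k ∧
      ¬ B.Con (W (h b)) (B.ev p) (B.ev q)}) ha hb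
    (hdec _ (B.con_isCon (W (h b)))) hab
  have hE : ∀ x y, W x = W y → B.Con (W (h x)) = B.Con (W (h y)) := by
    intro x y hxy
    rw [← B.isoRel_iff hU, ← hred, A.isoRel_iff hV, hxy]
  by_cases hx : ∃ k ∈ W (h e), k ∈ {k | ∃ p q : Term τ (Fin 1), pairCode p q = k ∧
      ¬ B.Con (W (h b)) (B.ev p) (B.ev q)}
  · exfalso
    have h3 := hE e b (h1 hx)
    obtain ⟨k, hk, p, q, hpq, hn⟩ := hx
    apply hn
    rw [← h3]
    apply B.con_of_mem
    rw [hpq]
    exact hk
  · have h3 := hE e a (h2 hx)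
    rw [← h3] at hxy
    refine hxy _ (B.con_isCon _) ?_
    intro p q hpq
    by_contra hn
    exact hx ⟨_, hpq, p, q, rfl, hn⟩

end Pool.Agent.Lib.MP_418eb4_lc
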